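import Mathlib

/-! # [H4 SF DSC] The discriminant of the field of a root is at most the discriminant of the polynomial

`k` a number field with a ring isomorphism to `AdjoinRoot (P.map ..)`, or simply: `θ : k` with `aeval θ P = 0` and `[k : ℚ] = P.natDegree`. `θ` is integral (`P` monic), `minpoly ℚ θ = P.map _`
(`P.map` irreducible monic), the family `b i = θ^i`, `i < d`, is a basis of `k` (`finrank = d`, `PowerBasis`/`linearIndependent_pow`), integral.
(1) `Algebra.discr ℚ b = (det A)^2 * discr k` for the integer matrix `A` of `b` in the integral basis (`NumberField.integralBasis`,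
`Algebra.discr_of_matrix_mulVec`/`Algebra.discr_of_matrix_vecMul`, `NumberField.coe_discr`), `det A ≠ 0` (`Algebra.discr_not_zero_of_basis`), so `|discr k| ≤ |Algebra.discr ℚ b|`.
(2) `Algebra.discr ℚ b = (det (σ_i θ^j))^2` over `ℂ` (`Algebra.discr_eq_det_embeddingsMatrixReindex_pow_two`); all conjugates satisfy `|σ θ| ≤ 1 + H^D ≤ H^(D+1)` (a root of the monic
polynomial `P.map`: Cauchy bound, `‖z‖ ≤ 1 + max ‖c_i‖`); the determinant is a sum of `d!` products of `d` entries of absolute value at most `(H^(D+1))^d`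
(`Matrix.det_apply`, `Matrix.det_le`): at most `d! (H^(D+1))^(d*d) ≤ H^(d^2) H^((D+1) d^2) = H^((D+2) d^2)` (`d! ≤ d^d ≤ 2^(d^2)`). Square it, `d ≤ D`. -/

namespace Pool.Agent.H4.SF

open Polynomial

open scoped Nat in
private theorem dsc_fac (d : ℕ) : (d ! : ℝ) ≤ 2 ^ (d ^ 2) := by
  have h1 : d ! ≤ d ^ d := Nat.factorial_le_pow d
  have h2 : d ^ d ≤ (2 ^ d) ^ d := Nat.pow_le_pow_left (Nat.lt_two_pow_self).le d
  have h3 : d ! ≤ 2 ^ (d ^ 2) := by
    rw [pow_two, pow_mul]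
    exact h1.trans h2
  exact_mod_cast h3

private theorem dsc_root {P : ℤ[X]} (hP : P.Monic) {H D : ℕ} (hH : 2 ≤ H)
    (hc : ∀ i, |P.coeff i| ≤ (H : ℤ) ^ D) (z : ℂ) (hz : aeval z P = 0) :
    ‖z‖ ≤ (H : ℝ) ^ (D + 1) := by
  set p : ℂ[X] := P.map (Int.castRingHom ℂ) with hp
  have hpm : p.Monic := hP.map _
  have hroot : p.IsRoot z := by
    rw [IsRoot.def, hp, eval_map, ← algebraMap_int_eq, ← aeval_def, hz]
  have h1 := hroot.norm_lt_cauchyBound hpm.ne_zero
  have h2 : (cauchyBound p : ℝ) ≤ (H : ℝ) ^ D + 1 := by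
    unfold cauchyBound
    rw [hpm.leadingCoeff, nnnorm_one, div_one]
    push_cast
    have h3 : (Finset.range p.natDegree).sup (‖p.coeff ·‖₊) ≤ (H : NNReal) ^ D := by
      apply Finset.sup_le
      intro i _
      have h4 : ‖p.coeff i‖ = ((|P.coeff i| : ℤ) : ℝ) := by
        rw [hp, coeff_map, eq_intCast, Complex.norm_intCast]
        push_cast
        rfl
      have h5 : ((|P.coeff i| : ℤ) : ℝ) ≤ ((H : ℝ)) ^ D := by exact_mod_cast hc i
      rw [← NNReal.coe_le_coe]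
      push_cast
      rw [h4]
      exact h5
    have h6 : (((Finset.range p.natDegree).sup (‖p.coeff ·‖₊) : NNReal) : ℝ) ≤
        (((H : NNReal) ^ D : NNReal) : ℝ) := NNReal.coe_le_coe.mpr h3
    push_cast at h6
    linarith
  have h3 : ‖z‖ < (cauchyBound p : ℝ) := by exact_mod_cast h1
  have hH1 : (1 : ℝ) ≤ (H : ℝ) ^ D := one_le_pow₀ (by exact_mod_cast (by omega : 1 ≤ H))
  have hH2 : (2 : ℝ) ≤ (H : ℝ) := by exact_mod_cast hH
  calc ‖z‖ ≤ (H : ℝ) ^ D + 1 := by linarith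
    _ ≤ (H : ℝ) ^ D * 2 := by linarith
    _ ≤ (H : ℝ) ^ D * H := by gcongr
    _ = (H : ℝ) ^ (D + 1) := (pow_succ _ _).symm

theorem disc_le {P : ℤ[X]} (hP : P.Monic) (hirr : Irreducible (P.map (Int.castRingHom ℚ)))
    {H D : ℕ} (hH : 2 ≤ H) (hd : P.natDegree ≤ D) (hc : ∀ i, |P.coeff i| ≤ (H : ℤ) ^ D)
    {k : Type} [Field k] [NumberField k] (hf : Module.finrank ℚ k = P.natDegree) {θ : k}
    (hθ : aeval θ P = 0) : |NumberField.discr k| ≤ (H : ℤ) ^ (2 * (D + 2) * D ^ 2) := by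
  classical
  set d := P.natDegree with hdd
  have hθi : IsIntegral ℤ θ := ⟨P, hP, by rw [← aeval_def]; exact hθ⟩
  let θ' : NumberField.RingOfIntegers k := ⟨θ, hθi⟩
  have hθ' : algebraMap (NumberField.RingOfIntegers k) k θ' = θ := rfl
  -- the minimal polynomial
  have hmin : P.map (Int.castRingHom ℚ) = minpoly ℚ θ := by
    apply minpoly.eq_of_irreducible_of_monic hirr _ (hP.map _)
    rw [← algebraMap_int_eq, aeval_map_algebraMap]
    exact hθ
  have hmd : (minpoly ℚ θ).natDegree = d := by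
    rw [← hmin, natDegree_map_eq_of_injective Int.cast_injective]
  -- the basis
  have hli : LinearIndependent ℚ fun i : Fin d => θ ^ (i : ℕ) := by
    have := linearIndependent_pow (K := ℚ) θ
    rw [hmd] at this
    exact this
  have hd0 : 0 < d := by rw [← hf]; exact Module.finrank_pos
  have hne : Nonempty (Fin d) := ⟨⟨0, hd0⟩⟩
  let B := basisOfLinearIndependentOfCardEqFinrank hli (by rw [Fintype.card_fin, hf])
  have hB : (B : Fin d → k) = fun i : Fin d => θ ^ (i : ℕ) :=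
    coe_basisOfLinearIndependentOfCardEqFinrank hli _
  set b : Fin d → k := fun i : Fin d => θ ^ (i : ℕ) with hb
  have hdisc0 : Algebra.discr ℚ b ≠ 0 := by
    have := Algebra.discr_not_zero_of_basis ℚ B
    rw [hB] at this
    exact this
  -- (1)
  have hcard : Fintype.card (Module.Free.ChooseBasisIndex ℤ (NumberField.RingOfIntegers k)) =
      Fintype.card (Fin d) := by
    rw [← Module.finrank_eq_card_chooseBasisIndex, NumberField.RingOfIntegers.rank, hf,
      Fintype.card_fin]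
  let e : Module.Free.ChooseBasisIndex ℤ (NumberField.RingOfIntegers k) ≃ Fin d :=
    Fintype.equivOfCardEq hcard
  let ω := (NumberField.integralBasis k).reindex e
  let A : Matrix (Fin d) (Fin d) ℤ := fun i j =>
    (NumberField.RingOfIntegers.basis k).repr (θ' ^ (j : ℕ)) (e.symm i)
  have hA : ω.toMatrix b = A.map (Int.castRingHom ℚ) := by
    ext i j
    rw [Module.Basis.toMatrix_apply, Matrix.map_apply, Module.Basis.repr_reindex_apply]
    have h1 := NumberField.integralBasis_repr_apply k (θ' ^ (j : ℕ)) (e.symm i)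
    rw [map_pow, hθ'] at h1
    exact h1
  have hdw : Algebra.discr ℚ ω = (NumberField.discr k : ℚ) := by
    rw [NumberField.coe_discr, Module.Basis.coe_reindex, Algebra.discr_reindex]
  have hdb : Algebra.discr ℚ b = ((A.det : ℤ) : ℚ) ^ 2 * (NumberField.discr k : ℚ) := by
    have h1 := Algebra.discr_of_matrix_vecMul (A := ℚ) ω (ω.toMatrix b)
    rw [Module.Basis.toMatrix_map_vecMul, hdw, hA] at h1
    rw [h1]
    congr 2
    exact (RingHom.map_det (Int.castRingHom ℚ) A).symm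
  have hA0 : A.det ≠ 0 := by
    intro h
    apply hdisc0
    rw [hdb, h]
    simp
  have hle1 : ((|NumberField.discr k| : ℤ) : ℝ) ≤ ‖((Algebra.discr ℚ b : ℚ) : ℂ)‖ := by
    rw [hdb, Rat.cast_mul, Rat.cast_pow, Rat.cast_intCast, Rat.cast_intCast, norm_mul, norm_pow,
      Complex.norm_intCast, Complex.norm_intCast, Int.cast_abs]
    have h1 : (1 : ℝ) ≤ |(A.det : ℝ)| := by
      have : (1 : ℤ) ≤ |A.det| := Int.one_le_abs hA0
      exact_mod_cast this
    have h2 : (1 : ℝ) ≤ |(A.det : ℝ)| ^ 2 := one_le_pow₀ h1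
    have h3 : 0 ≤ |(NumberField.discr k : ℝ)| := abs_nonneg _
    nlinarith
  -- (2)
  have hcard2 : Fintype.card (k →ₐ[ℚ] ℂ) = d := by
    rw [AlgHom.card ℚ k ℂ, hf]
  let e2 : Fin d ≃ (k →ₐ[ℚ] ℂ) := (Fintype.equivFinOfCardEq hcard2).symm
  have h2 := Algebra.discr_eq_det_embeddingsMatrixReindex_pow_two (K := ℚ) (E := ℂ) b e2
  have h3 : ((Algebra.discr ℚ b : ℚ) : ℂ) =
      (Algebra.embeddingsMatrixReindex ℚ ℂ b e2).det ^ 2 := by
    rw [← h2]; rfl
  have hH1 : (1 : ℝ) ≤ (H : ℝ) := by exact_mod_cast (by omega : 1 ≤ H)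
  have hent : ∀ i j, ‖Algebra.embeddingsMatrixReindex ℚ ℂ b e2 i j‖ ≤
      ((H : ℝ) ^ (D + 1)) ^ d := by
    intro i j
    have h4 : Algebra.embeddingsMatrixReindex ℚ ℂ b e2 i j = (e2 j θ) ^ (i : ℕ) := by
      unfold Algebra.embeddingsMatrixReindex
      rw [Matrix.reindex_apply, Matrix.submatrix_apply, Algebra.embeddingsMatrix_apply]
      simp only [hb, Equiv.refl_symm, Equiv.refl_apply, map_pow, Equiv.symm_symm]
    rw [h4, norm_pow]
    have h5 : ‖e2 j θ‖ ≤ (H : ℝ) ^ (D + 1) := by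
      apply dsc_root hP hH hc
      have h6 : aeval (e2 j θ) P = e2 j (aeval θ P) := by
        have := Polynomial.aeval_algHom_apply ((e2 j).restrictScalars ℤ) θ P
        exact this
      rw [h6, hθ, map_zero]
    calc ‖e2 j θ‖ ^ (i : ℕ) ≤ ((H : ℝ) ^ (D + 1)) ^ (i : ℕ) :=
          pow_le_pow_left₀ (norm_nonneg _) h5 _
      _ ≤ ((H : ℝ) ^ (D + 1)) ^ d := pow_le_pow_right₀ (one_le_pow₀ hH1) i.2.le
  have hdet : ‖(Algebra.embeddingsMatrixReindex ℚ ℂ b e2).det‖ ≤
      (H : ℝ) ^ ((D + 2) * d ^ 2) := by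
    have h4 := Matrix.det_le (A := Algebra.embeddingsMatrixReindex ℚ ℂ b e2)
      (abv := NormedField.toAbsoluteValue ℂ) (x := ((H : ℝ) ^ (D + 1)) ^ d) hent
    rw [Fintype.card_fin, nsmul_eq_mul] at h4
    have hfac := dsc_fac d
    have h5 : (2 : ℝ) ^ (d ^ 2) ≤ (H : ℝ) ^ (d ^ 2) :=
      pow_le_pow_left₀ (by norm_num) (by exact_mod_cast hH) _
    calc ‖(Algebra.embeddingsMatrixReindex ℚ ℂ b e2).det‖
        ≤ (d.factorial : ℝ) * (((H : ℝ) ^ (D + 1)) ^ d) ^ d := h4
      _ ≤ (H : ℝ) ^ (d ^ 2) * (((H : ℝ) ^ (D + 1)) ^ d) ^ d := by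
          gcongr
          exact hfac.trans h5
      _ = (H : ℝ) ^ ((D + 2) * d ^ 2) := by
          rw [← pow_mul, ← pow_mul, ← pow_add]
          congr 1
          ring
  have hfin : ((|NumberField.discr k| : ℤ) : ℝ) ≤ (H : ℝ) ^ (2 * (D + 2) * D ^ 2) := by
    calc ((|NumberField.discr k| : ℤ) : ℝ) ≤ ‖((Algebra.discr ℚ b : ℚ) : ℂ)‖ := hle1
      _ = ‖(Algebra.embeddingsMatrixReindex ℚ ℂ b e2).det‖ ^ 2 := by rw [h3, norm_pow]
      _ ≤ ((H : ℝ) ^ ((D + 2) * d ^ 2)) ^ 2 := pow_le_pow_left₀ (norm_nonneg _) hdet 2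
      _ = (H : ℝ) ^ (2 * (D + 2) * d ^ 2) := by rw [← pow_mul]; congr 1; ring
      _ ≤ (H : ℝ) ^ (2 * (D + 2) * D ^ 2) := by
          apply pow_le_pow_right₀ hH1
          gcongr
  exact_mod_cast hfin

end Pool.Agent.H4.SF
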