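import Mathlib
import Pool.Agent.H98.SI.Stmt

/-!
# [H4 SF] ALL OF SIEGEL (MP_821da1_nt), the part outside the frame: definitions

`G : ℤ[X][X]` is a polynomial in `w` (outer variable) over `ℤ[x]`, weights `1` of `x`, `κ` of `w`.
`Data D H x y`: what the frame gives for a large integer point `(x, y)`: a monic irreducible `G` with the integer
zero `(x + c y, w)`, whose leading form is a power of an irreducible polynomial `P` of degree at least three.
`Frame`: the theorem of the frame (lemma form).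
-/

namespace Pool.Agent.H4.SF

open Polynomial

/-- the coefficients of `G` have weights at most `κ (D - j)` -/
def Wt (κ : ℕ) (G : ℤ[X][X]) : Prop :=
  ∀ j, (G.coeff j).natDegree ≤ κ * (G.natDegree - j)

/-- the leading form -/
noncomputable def lf (κ : ℕ) (G : ℤ[X][X]) : ℤ[X] :=
  ∑ j ∈ Finset.range (G.natDegree + 1), C ((G.coeff j).coeff (κ * (G.natDegree - j))) * X ^ j

/-- the value at `(x, w)` -/
noncomputable def ev {S : Type*} [CommRing S] (x w : S) (G : ℤ[X][X]) : S :=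
  eval₂ (eval₂RingHom (Int.castRingHom S) x) w G

/-- the polynomial in two variables -/
noncomputable def toM (G : ℤ[X][X]) : MvPolynomial (Fin 2) ℤ :=
  ev (MvPolynomial.X 0) (MvPolynomial.X 1) G

/-- the properties of `G` and `P` -/
structure Good (D H κ : ℕ) (G : ℤ[X][X]) (P : ℤ[X]) : Prop where
  κD : κ ≤ D
  monic : G.Monic
  deg : G.natDegree ≤ D
  irr : Irreducible (G.map (mapRingHom (Int.castRingHom ℚ)))
  wt : Wt κ G
  cf : ∀ i j, |(G.coeff j).coeff i| ≤ (H : ℤ) ^ D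
  Pmonic : P.Monic
  Pirr : Irreducible (P.map (Int.castRingHom ℚ))
  P3 : 3 ≤ P.natDegree
  lf : ∃ j, lf κ G = P ^ j
  Pdeg : P.natDegree ≤ D
  Pcf : ∀ i, |P.coeff i| ≤ (H : ℤ) ^ D

/-- what the frame gives for a large point -/
def Data (D H : ℕ) (x y : ℤ) : Prop :=
  ∃ (c κ : ℕ) (G : ℤ[X][X]) (P : ℤ[X]) (w : ℤ), c ≤ D ∧ Good D H κ G P ∧
    ev (x + c * y) w G = 0 ∧ max |x| |y| ≤ |x + c * y| ^ D ∧ |w| ≤ |x + c * y| ^ D

/-- the theorem of the frame -/
def Frame : Prop :=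
  ∀ n : ℕ, ∃ D : ℕ, ∀ (F : MvPolynomial (Fin 2) ℤ) (H : ℕ), F.totalDegree ≤ n →
    H98.SI.Scope F → 2 ≤ H → (∀ m, |MvPolynomial.coeff m F| ≤ (H : ℤ)) →
    ∀ x y : ℤ, MvPolynomial.eval ![x, y] F = 0 → max |x| |y| ≤ (H : ℤ) ^ D ∨ Data D H x y

end Pool.Agent.H4.SF
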