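import Pool.Agent.H4.SF.ALC

/-! # [H4 SF MKF] One number for every real number field

`allC n hn k hk` (the theorem of AllCurves) gives a set `S_k` with at most as many elements as the class of `k`, the set `cl k = {K : Subfield ℝ | Nonempty (k ≃+* K)}`. Choose the sets canonically:
For a set `c : Set (Subfield ℝ)` let `Q c (g : Subfield ℝ → ℕ)` be: for all number fields `k : Type` of degree `≥ 3` with `cl k = c`, the conclusion of `AllCurves` for all `F`, `H`
(with `Star k F`) with `∃ K ∈ c, g K ≤ max ∧ max ≤ g K ^ W` instead of `∃ M ∈ S`.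
CLAIM: for every `c` there is `g` with `Q c g`. If there is no `k` with `cl k = c`: anything. Otherwise fix one such `k0`.
If `c = ∅`: `g = 0`; every `k` with `cl k = ∅` has `S_k` of cardinality `≤ ncard ∅ = 0`: `S_k = ∅`. If `c ≠ ∅`: `S := S_k0`, `card S ≤ ncard c`: there is `g` with `∀ M ∈ S, ∃ K ∈ c, g K = M`
(if `c` is infinite `ncard c = 0` and `S = ∅`; otherwise an injection of `S` into `c.toFinset`, `Finset.exists_subset_card_eq`/`Finset.equivOfCardEq`, extended by `0`; `Function.Embedding` of finite types by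
`Fintype.card_le`). Any other `k` with `cl k = c` is isomorphic to `k0`: `K ∈ c` gives `k ≃+* K` and `k0 ≃+* K`; `Star k F → Star k0 F` (compose ring homs).
`M K := (choose g for c = {K' | Nonempty (K ≃+* K')}) K`; for `k` and `K ∈ cl k` the class of `K` is `cl k` (`RingEquiv.trans`, `symm`). -/

namespace Pool.Agent.H4.SF

open MvPolynomial

/-- the condition at infinity of `AllCurves` -/
def Star (k : Type) [Field k] (F : MvPolynomial (Fin 2) ℤ) : Prop :=
  ∀ (K : Type) [Field K] [NumberField K], Nonempty (K →+* ℝ) →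
    ∀ X Y : LaurentSeries K, eval₂ (Int.castRingHom (LaurentSeries K)) ![X, Y] F = 0 →
      (X ∈ (HahnSeries.ofPowerSeries ℤ K).range ∧
        Y ∈ (HahnSeries.ofPowerSeries ℤ K).range) ∨ Nonempty (k →+* K)

private def cl (k : Type) [Field k] : Set (Subfield ℝ) := {K | Nonempty (k ≃+* K)}

private theorem mk_inj {c : Set (Subfield ℝ)} {S : Finset ℕ} (h : S.card ≤ c.ncard) :
    ∃ g : Subfield ℝ → ℕ, ∀ M ∈ S, ∃ K ∈ c, g K = M := by
  rcases S.eq_empty_or_nonempty with rfl | hS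
  · exact ⟨fun _ => 0, fun M hM => absurd hM (Finset.notMem_empty M)⟩
  have hc : c.Finite := by
    apply Set.finite_of_ncard_pos
    exact (Finset.card_pos.2 hS).trans_le h
  have : Finite c := hc.to_subtype
  have := Fintype.ofFinite c
  have h1 : Fintype.card S ≤ Fintype.card c := by
    rw [Fintype.card_coe, ← Nat.card_eq_fintype_card, Nat.card_coe_set_eq]
    exact h
  obtain ⟨i⟩ := Function.Embedding.nonempty_of_card_le h1
  have hi : Function.Injective fun M : S => (i M : Subfield ℝ) :=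
    Subtype.val_injective.comp i.injective
  refine ⟨Function.extend (fun M : S => (i M : Subfield ℝ)) (fun M => (M : ℕ)) (fun _ => 0), ?_⟩
  intro M hM
  exact ⟨i ⟨M, hM⟩, (i ⟨M, hM⟩).2, hi.extend_apply _ _ ⟨M, hM⟩⟩

private theorem mk_cl (n : ℕ) (hn : 3 ≤ n) (c : Set (Subfield ℝ)) : ∃ g : Subfield ℝ → ℕ,
    ∀ (k : Type) [Field k] [NumberField k], 3 ≤ Module.finrank ℚ k → cl k = c →
      ∀ (F : MvPolynomial (Fin 2) ℤ) (H : ℕ), F.totalDegree ≤ n →
        Irreducible (map (Int.castRingHom ℚ) F) → Star k F →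
        2 ≤ H → (∀ m, |coeff m F| ≤ (H : ℤ)) →
        ∀ x y : ℤ, eval ![x, y] F = 0 →
          max |x| |y| ≤ (H : ℤ) ^ (2 ^ (2 * n ^ 2).factorial) ∨
            ∃ K ∈ c, (g K : ℤ) ≤ max |x| |y| ∧
              max |x| |y| ≤ (g K : ℤ) ^ (14000 * n ^ 8) := by
  by_cases h0 : ∃ (k0 : Type) (_ : Field k0) (_ : NumberField k0), 3 ≤ Module.finrank ℚ k0 ∧
      cl k0 = c
  swap
  · refine ⟨fun _ => 0, fun k _ _ hk hc => absurd ⟨k, inferInstance, inferInstance, hk, hc⟩ h0⟩
  obtain ⟨k0, _, _, hk0, hc0⟩ := h0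
  obtain ⟨S, hS, hall⟩ := allC n hn k0 hk0
  have hS' : S.card ≤ c.ncard := by
    rw [← hc0]
    exact hS
  obtain ⟨g, hg⟩ := mk_inj hS'
  refine ⟨g, fun k _ _ hk hc F H hdeg hirr hst hH hcf x y hev => ?_⟩
  rcases c.eq_empty_or_nonempty with rfl | ⟨K, hK⟩
  · obtain ⟨S', hS'', hall'⟩ := allC n hn k hk
    have h1 : S' = ∅ := by
      rw [← Finset.card_eq_zero]
      have h2 : S'.card ≤ (cl k).ncard := hS''
      rw [hc, Set.ncard_empty] at h2
      omega
    rcases hall' F H hdeg hirr hst hH hcf x y hev with h3 | ⟨M, hM, -⟩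
    · exact Or.inl h3
    · rw [h1] at hM
      exact absurd hM (Finset.notMem_empty M)
  · have hK0 : K ∈ cl k0 := by rw [hc0]; exact hK
    have hK1 : K ∈ cl k := by rw [hc]; exact hK
    obtain ⟨e0⟩ := hK0
    obtain ⟨e1⟩ := hK1
    have hst0 : Star k0 F := by
      intro K' _ _ hK' X Y hXY
      refine (hst K' hK' X Y hXY).imp_right fun h3 => ?_
      obtain ⟨f⟩ := h3
      exact ⟨f.comp (e0.trans e1.symm : k0 ≃+* k).toRingHom⟩
    rcases hall F H hdeg hirr hst0 hH hcf x y hev with h3 | ⟨M, hM, h3, h4⟩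
    · exact Or.inl h3
    · obtain ⟨K', hK', hg'⟩ := hg M hM
      refine Or.inr ⟨K', hK', ?_, ?_⟩
      · rw [hg']
        exact h3
      · rw [hg']
        exact h4

theorem exists_MK (n : ℕ) (hn : 3 ≤ n) : ∃ M : Subfield ℝ → ℕ,
    ∀ (k : Type) [Field k] [NumberField k], 3 ≤ Module.finrank ℚ k →
      ∀ (F : MvPolynomial (Fin 2) ℤ) (H : ℕ), F.totalDegree ≤ n →
        Irreducible (map (Int.castRingHom ℚ) F) → Star k F →
        2 ≤ H → (∀ m, |coeff m F| ≤ (H : ℤ)) →
        ∀ x y : ℤ, eval ![x, y] F = 0 →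
          max |x| |y| ≤ (H : ℤ) ^ (2 ^ (2 * n ^ 2).factorial) ∨
            ∃ K : Subfield ℝ, Nonempty (k ≃+* K) ∧ (M K : ℤ) ≤ max |x| |y| ∧
              max |x| |y| ≤ (M K : ℤ) ^ (14000 * n ^ 8) := by
  choose G hG using mk_cl n hn
  refine ⟨fun K => G {K' | Nonempty (K ≃+* K')} K, ?_⟩
  intro k _ _ hk F H hdeg hirr hst hH hcf x y hev
  rcases hG (cl k) k hk rfl F H hdeg hirr hst hH hcf x y hev with h | ⟨K, hK, h1, h2⟩
  · exact Or.inl h
  · right
    have hc : {K' : Subfield ℝ | Nonempty (K ≃+* K')} = cl k := by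
      obtain ⟨e⟩ := hK
      ext K'
      constructor
      · rintro ⟨f⟩
        exact ⟨e.trans f⟩
      · rintro ⟨f⟩
        exact ⟨e.symm.trans f⟩
    refine ⟨K, hK, ?_, ?_⟩
    · show (G {K' : Subfield ℝ | Nonempty (K ≃+* K')} K : ℤ) ≤ _
      rw [hc]
      exact h1
    · show _ ≤ (G {K' : Subfield ℝ | Nonempty (K ≃+* K')} K : ℤ) ^ _
      rw [hc]
      exact h2

end Pool.Agent.H4.SF
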