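import Pool.Agent.H4.SF.Defs

/-! # [H4 SF TOF] The polynomial in two variables

`toM_coeff`: induction (`Polynomial.induction_on'` twice, or `Polynomial.as_sum_range`): `toM (monomial j (monomial i a)) = monomial (single 0 i + single 1 j) a`.
`toM_eval₂`: `MvPolynomial.eval₂Hom` after `toM` is a ring hom `ℤ[X][X] →+* S`; two ring homs agree on `C (C a)`, `C X`, `X`
(`Polynomial.ringHom_ext'`). `toM_tot`: a monomial `(i, j)` of `toM G` has `i ≤ κ (D0 - j)`, `j ≤ D0`, `D0 = G.natDegree` (`Wt`; for `j > D0` the coefficient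
is zero), so `i + j ≤ κ D0 + D0 ≤ D (D + 1)` (`MvPolynomial.totalDegree_le_iff`/`Finset.sup_le`).
`toM_irr`: the same construction over `ℚ`, `Φ : ℚ[X][X] ≃+* MvPolynomial (Fin 2) ℚ` (e.g. `Polynomial.mapEquiv` and `MvPolynomial.finSuccEquiv`, or define both ring
homs and show that they are inverse to each other on generators), `Φ (G.map _) = MvPolynomial.map _ (toM G)` (two ring homs agree);
`MulEquiv.irreducible_iff`. -/

namespace Pool.Agent.H4.SF

open Polynomial

private noncomputable def toMh : ℤ[X][X] →+* MvPolynomial (Fin 2) ℤ :=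
  eval₂RingHom (eval₂RingHom (Int.castRingHom (MvPolynomial (Fin 2) ℤ)) (MvPolynomial.X 0)) (MvPolynomial.X 1)

private theorem toMh_mono (i j : ℕ) (a : ℤ) : toMh (Polynomial.monomial j (Polynomial.monomial i a)) =
    MvPolynomial.monomial (Finsupp.single 0 i + Finsupp.single 1 j) a := by
  rw [toMh, Polynomial.coe_eval₂RingHom, Polynomial.eval₂_monomial, Polynomial.coe_eval₂RingHom,
    Polynomial.eval₂_monomial, eq_intCast, MvPolynomial.monomial_eq]
  rw [Finsupp.prod_add_index' (by simp) (fun _ _ _ => pow_add _ _ _)]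
  have h0 : (Finsupp.single (0 : Fin 2) i).prod (fun x => HPow.hPow (MvPolynomial.X (R := ℤ) x)) =
      (MvPolynomial.X 0) ^ i := Finsupp.prod_single_index (pow_zero _)
  have h1 : (Finsupp.single (1 : Fin 2) j).prod (fun x => HPow.hPow (MvPolynomial.X (R := ℤ) x)) =
      (MvPolynomial.X 1) ^ j := Finsupp.prod_single_index (pow_zero _)
  rw [h0, h1, mul_assoc]
  rfl

private noncomputable def toMQ : ℚ[X][X] →+* MvPolynomial (Fin 2) ℚ :=
  eval₂RingHom (eval₂RingHom (MvPolynomial.C : ℚ →+* MvPolynomial (Fin 2) ℚ) (MvPolynomial.X 0)) (MvPolynomial.X 1)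

private noncomputable def backQ : MvPolynomial (Fin 2) ℚ →+* ℚ[X][X] :=
  MvPolynomial.eval₂Hom ((C : ℚ[X] →+* ℚ[X][X]).comp (C : ℚ →+* ℚ[X])) ![C X, X]

private noncomputable def toMQe : ℚ[X][X] ≃+* MvPolynomial (Fin 2) ℚ :=
  RingEquiv.ofRingHom toMQ backQ
    (by
      apply MvPolynomial.ringHom_ext
      · intro r
        simp [backQ, toMQ]
      · intro i
        fin_cases i <;> simp [backQ, toMQ])
    (by
      apply Polynomial.ringHom_ext
      · intro p
        have h : (backQ.comp toMQ).comp C = C := by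
          apply Polynomial.ringHom_ext
          · intro r
            simp [backQ, toMQ]
          · simp [backQ, toMQ]
        have h' := congrArg (fun φ : ℚ[X] →+* ℚ[X][X] => φ p) h
        simpa using h'
      · simp [backQ, toMQ])

theorem toM_coeff (G : ℤ[X][X]) (m : Fin 2 →₀ ℕ) :
    (toM G).coeff m = (G.coeff (m 1)).coeff (m 0) := by
  have h : toMh G = toM G := rfl
  rw [← h]
  clear h
  induction G using Polynomial.induction_on' with
  | add p q hp hq => rw [map_add, MvPolynomial.coeff_add, hp, hq, Polynomial.coeff_add, Polynomial.coeff_add]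
  | monomial j p =>
    induction p using Polynomial.induction_on' with
    | add p q hp hq =>
      rw [map_add, map_add, MvPolynomial.coeff_add, hp, hq, Polynomial.coeff_add, Polynomial.coeff_add]
    | monomial i a =>
      rw [toMh_mono, MvPolynomial.coeff_monomial, Polynomial.coeff_monomial]
      by_cases h1 : j = m 1
      · rw [if_pos h1, Polynomial.coeff_monomial]
        by_cases h0 : i = m 0
        · rw [if_pos h0, if_pos]
          ext k
          fin_cases k <;> simp [h0, h1]
        · rw [if_neg h0, if_neg]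
          intro h
          apply h0
          rw [← h]
          simp
      · rw [if_neg h1, if_neg, Polynomial.coeff_zero]
        intro h
        apply h1
        rw [← h]
        simp

theorem toM_eval₂ {S : Type*} [CommRing S] (x y : S) (G : ℤ[X][X]) :
    MvPolynomial.eval₂ (Int.castRingHom S) ![x, y] (toM G) = ev x y G := by
  have h := Polynomial.hom_eval₂ G (eval₂RingHom (Int.castRingHom (MvPolynomial (Fin 2) ℤ)) (MvPolynomial.X 0))
    (MvPolynomial.eval₂Hom (Int.castRingHom S) ![x, y]) (MvPolynomial.X 1)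
  have h1 : (MvPolynomial.eval₂Hom (Int.castRingHom S) ![x, y]).comp
      (eval₂RingHom (Int.castRingHom (MvPolynomial (Fin 2) ℤ)) (MvPolynomial.X 0)) =
      eval₂RingHom (Int.castRingHom S) x := by
    apply Polynomial.ringHom_ext
    · intro a
      simp
    · simp
  rw [h1] at h
  have h2 : (MvPolynomial.eval₂Hom (Int.castRingHom S) ![x, y]) (MvPolynomial.X 1) = y := by simp
  rw [h2] at h
  exact h

theorem toM_eval (x y : ℤ) (G : ℤ[X][X]) : MvPolynomial.eval ![x, y] (toM G) = ev x y G := by
  rw [← toM_eval₂ x y G]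
  rfl

theorem toM_tot {D κ : ℕ} {G : ℤ[X][X]} (hκ : κ ≤ D) (hd : G.natDegree ≤ D) (hw : Wt κ G) :
    (toM G).totalDegree ≤ D * (D + 1) := by
  rw [MvPolynomial.totalDegree]
  apply Finset.sup_le
  intro m hm
  rw [MvPolynomial.mem_support_iff, toM_coeff] at hm
  have h1 : m 1 ≤ G.natDegree := by
    by_contra h
    rw [Polynomial.coeff_eq_zero_of_natDegree_lt (not_le.mp h)] at hm
    simp at hm
  have h0 : m 0 ≤ κ * (G.natDegree - m 1) := (Polynomial.le_natDegree_of_ne_zero hm).trans (hw _)
  rw [Finsupp.sum_fintype _ _ (fun _ => rfl), Fin.sum_univ_two]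
  have h2 : κ * (G.natDegree - m 1) ≤ D * D := Nat.mul_le_mul hκ (by omega)
  calc m 0 + m 1 ≤ D * D + D := by omega
    _ = D * (D + 1) := by ring

theorem toM_irr {G : ℤ[X][X]} (h : Irreducible (G.map (mapRingHom (Int.castRingHom ℚ)))) :
    Irreducible (MvPolynomial.map (Int.castRingHom ℚ) (toM G)) := by
  have h1 : MvPolynomial.map (Int.castRingHom ℚ) (toM G) =
      toMQ (G.map (mapRingHom (Int.castRingHom ℚ))) := by
    have h := Polynomial.hom_eval₂ G (eval₂RingHom (Int.castRingHom (MvPolynomial (Fin 2) ℤ)) (MvPolynomial.X 0))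
      (MvPolynomial.map (Int.castRingHom ℚ)) (MvPolynomial.X 1)
    have h2 : (MvPolynomial.map (Int.castRingHom ℚ)).comp
        (eval₂RingHom (Int.castRingHom (MvPolynomial (Fin 2) ℤ)) (MvPolynomial.X 0)) =
        (eval₂RingHom (MvPolynomial.C : ℚ →+* MvPolynomial (Fin 2) ℚ) (MvPolynomial.X 0)).comp
          (mapRingHom (Int.castRingHom ℚ)) := by
      apply Polynomial.ringHom_ext
      · intro a
        simp
      · simp
    rw [h2, MvPolynomial.map_X] at h
    have h3 : toM G = eval₂ (eval₂RingHom (Int.castRingHom (MvPolynomial (Fin 2) ℤ)) (MvPolynomial.X 0))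
      (MvPolynomial.X 1) G := rfl
    rw [h3, h, toMQ, Polynomial.coe_eval₂RingHom, Polynomial.eval₂_map]
  rw [h1]
  exact (MulEquiv.irreducible_iff toMQe).mpr h

end Pool.Agent.H4.SF
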