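import Mathlib

/-! # [H4 SF WND] Windows -/

namespace Pool.Agent.H4.SF

theorem wnd1 {D m1 m2 a w : ℕ} (hD : 1 ≤ D) (h1 : m1 ≤ a ^ D) (h2 : w ≤ a ^ D)
    (ha : a ≤ (1 + D) * m1) (hm : m2 = max a w) (hm1 : 2 ≤ m1) :
    m1 ≤ m2 ^ D ∧ m2 ≤ m1 ^ (D * (D + 1)) := by
  have h3 : a ≤ m2 := by rw [hm]; exact le_max_left _ _
  have ha1 : 1 ≤ a := by
    rcases Nat.eq_zero_or_pos a with rfl | h
    · rw [zero_pow (by omega)] at h1
      omega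
    · exact h
  have h4 : m2 ≤ a ^ D := by
    rw [hm]
    exact max_le (Nat.le_self_pow (by omega) a) h2
  have h5 : (1 + D) * m1 ≤ m1 ^ (D + 1) := by
    rw [pow_succ]
    refine Nat.mul_le_mul_right _ ?_
    calc 1 + D ≤ 2 ^ D := by
          have : D < 2 ^ D := Nat.lt_two_pow_self
          omega
      _ ≤ m1 ^ D := Nat.pow_le_pow_left hm1 D
  refine ⟨h1.trans (Nat.pow_le_pow_left h3 D), ?_⟩
  calc m2 ≤ a ^ D := h4
    _ ≤ (m1 ^ (D + 1)) ^ D := Nat.pow_le_pow_left (ha.trans h5) D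
    _ = m1 ^ (D * (D + 1)) := by rw [← pow_mul, mul_comm]

/-- the smallest number whose `e`-th power is at least `M` -/
noncomputable def rt (e M : ℕ) : ℕ := sInf {t | M ≤ t ^ e}

theorem rt_le {e M t : ℕ} (h : M ≤ t ^ e) : rt e M ≤ t := Nat.sInf_le h

theorem le_rt {e M : ℕ} (he : 1 ≤ e) : M ≤ rt e M ^ e := by
  have h : (M : ℕ) ∈ {t | M ≤ t ^ e} := Nat.le_self_pow (by omega) M
  exact Nat.sInf_mem (s := {t | M ≤ t ^ e}) ⟨M, h⟩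

/-- the window for `m1` from the window for `m2` -/
theorem wnd2 {D W m1 m2 M : ℕ} (hD : 1 ≤ D) (h1 : m1 ≤ m2 ^ D) (h2 : m2 ≤ m1 ^ (D * (D + 1)))
    (h3 : M ≤ m2) (h4 : m2 ≤ M ^ W) :
    rt (D * (D + 1)) M ≤ m1 ∧ m1 ≤ rt (D * (D + 1)) M ^ (D * (D + 1) * W * D) := by
  have he : 1 ≤ D * (D + 1) := Nat.mul_pos hD (Nat.succ_pos D)
  refine ⟨rt_le (h3.trans h2), ?_⟩
  calc m1 ≤ m2 ^ D := h1
    _ ≤ (M ^ W) ^ D := Nat.pow_le_pow_left h4 D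
    _ ≤ ((rt (D * (D + 1)) M ^ (D * (D + 1))) ^ W) ^ D :=
        Nat.pow_le_pow_left (Nat.pow_le_pow_left (le_rt he) W) D
    _ = rt (D * (D + 1)) M ^ (D * (D + 1) * W * D) := by rw [← pow_mul, ← pow_mul, mul_assoc (D * (D + 1)) W D]

end Pool.Agent.H4.SF
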