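import Pool.Agent.H4.SF.STR
import Pool.Agent.H4.SF.TOF
import Pool.Agent.H4.SF.DSC
import Pool.Agent.H4.SF.MKF
import Pool.Agent.H4.SF.WND

/-! # [H4 SF FIN] ALL OF SIEGEL from the theorem of the frame -/

namespace Pool.Agent.H4.SF

open Polynomial

/-- the number field of `P` -/
abbrev KP (P : ℤ[X]) : Type := AdjoinRoot (P.map (Int.castRingHom ℚ))

theorem star_toM {D H κ : ℕ} {G : ℤ[X][X]} {P : ℤ[X]} (h : Good D H κ G P)
    [Fact (Irreducible (P.map (Int.castRingHom ℚ)))] : Star (KP P) (toM G) := by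
  intro K _ _ _ X Y hXY
  rw [toM_eval₂] at hXY
  rcases star h.monic h.wt h.lf hXY with h1 | ⟨θ, hθ⟩
  · exact Or.inl h1
  · refine Or.inr ⟨AdjoinRoot.lift (algebraMap ℚ K) θ ?_⟩
    rw [eval₂_map]
    rw [aeval_def] at hθ
    rw [← hθ]
    congr 1
    exact RingHom.ext_int _ _

theorem finrank_KP {P : ℤ[X]} (hP : P.Monic) (hi : Irreducible (P.map (Int.castRingHom ℚ))) :
    Module.finrank ℚ (KP P) = P.natDegree := by
  have h1 : P.map (Int.castRingHom ℚ) ≠ 0 := hi.ne_zero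
  rw [(AdjoinRoot.powerBasis h1).finrank, AdjoinRoot.powerBasis_dim, hP.natDegree_map]

theorem disc_KP {D H κ : ℕ} {G : ℤ[X][X]} {P : ℤ[X]} (h : Good D H κ G P) (hH : 2 ≤ H)
    [Fact (Irreducible (P.map (Int.castRingHom ℚ)))] :
    |NumberField.discr (KP P)| ≤ (H : ℤ) ^ (2 * (D + 2) * D ^ 2) := by
  refine disc_le h.Pmonic h.Pirr hH h.Pdeg h.Pcf (finrank_KP h.Pmonic h.Pirr)
    (θ := AdjoinRoot.root _) ?_
  have h1 := AdjoinRoot.eval₂_root (P.map (Int.castRingHom ℚ))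
  rw [eval₂_map] at h1
  rw [aeval_def, ← h1]
  congr 1

theorem rt_self {e M : ℕ} (he : 1 ≤ e) : rt e M ≤ M := rt_le (Nat.le_self_pow (by omega) M)

/-- **All of Siegel**, from the theorem of the frame -/
theorem siegel2_of_frame (hfr : Frame) : H98.SI.Siegel2 := by
  intro n
  obtain ⟨D, hD⟩ := hfr n
  obtain ⟨n', hn'⟩ : ∃ n', n' = max (max 3 (D * (D + 1))) (max n (D + 1 + 2 * (D + 2) * D ^ 2)) :=
    ⟨_, rfl⟩
  have hn3 : 3 ≤ n' := by
    rw [hn']
    exact (le_max_left _ _).trans (le_max_left _ _)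
  have hnn : n ≤ n' := by
    rw [hn']
    exact (le_max_left _ _).trans (le_max_right _ _)
  have hnD : D ≤ n' := by
    rw [hn']
    exact ((Nat.le_succ D).trans (Nat.le_add_right _ _)).trans
      ((le_max_right _ _).trans (le_max_right _ _))
  have hnH : 2 * (D + 2) * D ^ 2 ≤ n' := by
    rw [hn']
    exact (Nat.le_add_left _ _).trans ((le_max_right _ _).trans (le_max_right _ _))
  have hnDD : D * (D + 1) ≤ n' := by
    rw [hn']
    exact (le_max_right _ _).trans (le_max_left _ _)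
  obtain ⟨M, hM⟩ := exists_MK n' hn3
  obtain ⟨B, hB⟩ : ∃ B, B = 2 ^ (2 * n' ^ 2).factorial := ⟨_, rfl⟩
  obtain ⟨W, hW⟩ : ∃ W, W = 14000 * n' ^ 8 := ⟨_, rfl⟩
  rw [← hB, ← hW] at hM
  obtain ⟨D1, hD1⟩ : ∃ D1, D1 = D + 1 := ⟨_, rfl⟩
  obtain ⟨e, he⟩ : ∃ e, e = D1 * (D1 + 1) := ⟨_, rfl⟩
  have he1 : 1 ≤ e := by
    rw [he, hD1]
    exact Nat.mul_pos (Nat.succ_pos _) (Nat.succ_pos _)
  obtain ⟨C, hC⟩ : ∃ C, C = D + B + e * W + D * B * D1 + e * W * D1 +
      2 * (D + 2) * D ^ 2 := ⟨_, rfl⟩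
  have hC1 : D ≤ C := by rw [hC]; omega
  have hC2 : D * B * D1 ≤ C := by rw [hC]; omega
  have hC3 : e * W * D1 ≤ C := by rw [hC]; omega
  have hC4 : 2 * (D + 2) * D ^ 2 ≤ C := by rw [hC]; omega
  have hC5 : B ≤ C := by rw [hC]; omega
  have hC6 : e * W ≤ C := by rw [hC]; omega
  have hWpos : 1 ≤ W := by
    rw [hW]
    exact Nat.mul_pos (by norm_num) (pow_pos (by omega) _)
  -- windows from bounds by powers of `rt`
  have hwin : ∀ (K : Subfield ℝ) (m E : ℕ), 1 ≤ E → E ≤ C → 1 ≤ m → rt e (M K) ≤ m →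
      m ≤ rt e (M K) ^ E → H98.SI.Window C (rt e (M K)) (m : ℤ) := by
    intro K m E hE hEC hm h1 h2
    refine ⟨by exact_mod_cast h1, ?_⟩
    have h5 : 1 ≤ rt e (M K) := by
      by_contra h6
      have h7 : rt e (M K) = 0 := by omega
      rw [h7, zero_pow (by omega)] at h2
      omega
    have h6 : m ≤ rt e (M K) ^ C := h2.trans (Nat.pow_le_pow_right h5 hEC)
    exact_mod_cast h6
  refine ⟨n', C, fun K => rt e (M K), hnn, ?_, ?_⟩
  · -- the clause (A)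
    intro k _ _ hk G H hG hinf hH hGH x y hxy
    have hHz : (1 : ℤ) ≤ H := by exact_mod_cast (by omega : 1 ≤ H)
    obtain ⟨m1, hm1⟩ : ∃ m1, m1 = max x.natAbs y.natAbs := ⟨_, rfl⟩
    have hm1z : max |x| |y| = (m1 : ℤ) := by
      rw [hm1, Int.abs_eq_natAbs, Int.abs_eq_natAbs]
      push_cast
      rfl
    rcases hM k hk G H hG hinf.1 hinf.2 hH hGH x y hxy with h2 | ⟨K, hφ, h2, h3⟩
    · exact Or.inl (h2.trans (pow_le_pow_right₀ hHz hC5))
    · rw [hm1z] at h2 h3 ⊢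
      have h2' : M K ≤ m1 := by exact_mod_cast h2
      have h3' : m1 ≤ M K ^ W := by exact_mod_cast h3
      by_cases hm0 : m1 < 1
      · left
        have h4 : (m1 : ℤ) ≤ 0 := by exact_mod_cast (by omega : m1 ≤ 0)
        exact h4.trans (by positivity)
      · right
        refine ⟨K, hφ, hwin K m1 (e * W) (Nat.mul_pos he1 hWpos) hC6 (by omega)
          ((rt_self he1).trans h2') ?_⟩
        calc m1 ≤ M K ^ W := h3'
          _ ≤ (rt e (M K) ^ e) ^ W := Nat.pow_le_pow_left (le_rt he1) W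
          _ = rt e (M K) ^ (e * W) := by rw [← pow_mul]
  -- the clause (B)
  intro F H hF hS hH hFH x y hxy
  have hHz : (1 : ℤ) ≤ H := by exact_mod_cast (by omega : 1 ≤ H)
  rcases hD F H hF hS hH hFH x y hxy with h1 | h1
  · exact Or.inl (h1.trans (pow_le_pow_right₀ hHz hC1))
  obtain ⟨c, κ, G, P, w, hc, hG, hz, hx, hw⟩ := h1
  haveI : Fact (Irreducible (P.map (Int.castRingHom ℚ))) := ⟨hG.Pirr⟩
  have hD3 : 3 ≤ D := hG.P3.trans hG.Pdeg
  have hDD1 : D ≤ D1 := by omega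
  obtain ⟨H', hH'⟩ : ∃ H', H' = H ^ D := ⟨_, rfl⟩
  have hH'2 : 2 ≤ H' := by
    rw [hH']
    exact hH.trans (Nat.le_self_pow (by omega) H)
  obtain ⟨m1, hm1⟩ : ∃ m1, m1 = max x.natAbs y.natAbs := ⟨_, rfl⟩
  obtain ⟨a, ha⟩ : ∃ a, a = (x + c * y).natAbs := ⟨_, rfl⟩
  obtain ⟨m2, hm2⟩ : ∃ m2, m2 = max a w.natAbs := ⟨_, rfl⟩
  have hm1z : max |x| |y| = (m1 : ℤ) := by
    rw [hm1, Int.abs_eq_natAbs, Int.abs_eq_natAbs]
    push_cast
    rfl
  have hm2z : max |x + c * y| |w| = (m2 : ℤ) := by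
    rw [hm2, ha, Int.abs_eq_natAbs, Int.abs_eq_natAbs]
    push_cast
    rfl
  have haz : |x + c * y| = (a : ℤ) := by rw [ha, Int.abs_eq_natAbs]
  rw [hm1z, haz] at hx
  rw [haz, Int.abs_eq_natAbs] at hw
  have hx' : m1 ≤ a ^ D := by exact_mod_cast hx
  have hw' : w.natAbs ≤ a ^ D := by exact_mod_cast hw
  have hax : a ≤ (1 + D1) * m1 := by
    have h2 : |x + c * y| ≤ (1 + (D1 : ℤ)) * m1 := by
      rw [← hm1z]
      have h3 := abs_add_le x (c * y)
      have h4 : |x| ≤ max |x| |y| := le_max_left _ _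
      have h5 : |y| ≤ max |x| |y| := le_max_right _ _
      have h6 : |(c : ℤ) * y| ≤ D1 * max |x| |y| := by
        rw [abs_mul, Nat.abs_cast]
        exact mul_le_mul (by exact_mod_cast hc.trans hDD1) h5 (abs_nonneg _) (by positivity)
      linarith
    rw [haz] at h2
    exact_mod_cast h2
  rw [hm1z]
  by_cases hm12 : m1 < 2
  · left
    have h2 : (m1 : ℤ) ≤ 1 := by exact_mod_cast (by omega : m1 ≤ 1)
    exact h2.trans (one_le_pow₀ hHz)
  have hm12' : 2 ≤ m1 := by omega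
  have ha1 : 1 ≤ a := by
    rcases Nat.eq_zero_or_pos a with h | h
    · rw [h, zero_pow (by omega)] at hx'
      omega
    · exact h
  obtain ⟨w1, w2⟩ := wnd1 (D := D1) (by omega) (hx'.trans (Nat.pow_le_pow_right ha1 hDD1))
    (hw'.trans (Nat.pow_le_pow_right ha1 hDD1)) hax hm2 hm12'
  have htot : (toM G).totalDegree ≤ n' := (toM_tot hG.κD hG.deg hG.wt).trans hnDD
  have hk3 : 3 ≤ Module.finrank ℚ (KP P) := by
    rw [finrank_KP hG.Pmonic hG.Pirr]
    exact hG.P3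
  have hcf : ∀ m, |MvPolynomial.coeff m (toM G)| ≤ (H' : ℤ) := by
    intro m
    rw [toM_coeff, hH']
    push_cast
    exact hG.cf _ _
  have hz' : MvPolynomial.eval ![x + c * y, w] (toM G) = 0 := by rw [toM_eval]; exact hz
  rcases hM (KP P) hk3 (toM G) H' htot (toM_irr hG.irr) (star_toM hG) hH'2 hcf (x + c * y) w
    hz' with h2 | ⟨K, ⟨φ⟩, h2, h3⟩
  · left
    rw [hm2z, hH'] at h2
    have h3 : m2 ≤ (H ^ D) ^ B := by exact_mod_cast h2
    have h4 : m1 ≤ H ^ C := by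
      calc m1 ≤ m2 ^ D1 := w1
        _ ≤ ((H ^ D) ^ B) ^ D1 := Nat.pow_le_pow_left h3 D1
        _ = H ^ (D * B * D1) := by rw [← pow_mul, ← pow_mul, mul_assoc]
        _ ≤ H ^ C := Nat.pow_le_pow_right (by omega) hC2
    exact_mod_cast h4
  · right
    haveI : NumberField K := NumberField.of_ringEquiv (KP P) K φ
    rw [hm2z] at h2 h3
    have h2' : M K ≤ m2 := by exact_mod_cast h2
    have h3' : m2 ≤ M K ^ W := by exact_mod_cast h3
    obtain ⟨v1, v2⟩ := wnd2 (by omega) w1 w2 h2' h3'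
    rw [← he] at v1 v2
    have hfr : Module.finrank ℚ K = Module.finrank ℚ (KP P) :=
      ((AlgEquiv.ofRingEquiv (f := φ) fun _ => by simp : KP P ≃ₐ[ℚ] K).toLinearEquiv.finrank_eq).symm
    refine ⟨K, inferInstance, toM G, c, w, ?_, ?_, ?_, ?_, htot, ⟨toM_irr hG.irr, ?_⟩, ?_,
      hc.trans hnD, hz'⟩
    · rw [hfr]
      exact hk3
    · rw [hfr, finrank_KP hG.Pmonic hG.Pirr]
      exact hG.Pdeg.trans hnD
    · rw [← NumberField.discr_eq_discr_of_ringEquiv (KP P) φ]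
      exact (disc_KP hG hH).trans (pow_le_pow_right₀ hHz hnH)
    · exact hwin K m1 (e * W * D1)
        (Nat.mul_pos (Nat.mul_pos he1 hWpos) (by omega)) hC3 (by omega) v1 v2
    · intro L _ _ hL X Y hXY
      rcases star_toM hG L hL X Y hXY with h5 | h5
      · exact Or.inl h5
      · obtain ⟨ψ⟩ := h5
        exact Or.inr ⟨ψ.comp φ.symm.toRingHom⟩
    · intro m
      rw [toM_coeff]
      exact (hG.cf _ _).trans (pow_le_pow_right₀ hHz hnD)

end Pool.Agent.H4.SF
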