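import Pool.Agent.H4.SF.Defs

/-! # [H4 SF STR] The points at infinity of `G` carry a root of `P`

`O := K⟦t⟧` in `K((t))` (`HahnSeries.ofPowerSeries ℤ K`, range = elements of non-negative order; `O` is integrally closed in `K((t))`: it
is a valuation ring / `PowerSeries K` is a discrete valuation ring with fraction field `K((t))` (`LaurentSeries` instance `IsFractionRing`),
`IsIntegrallyClosed`). `ev X Y G = 0` is a monic equation for `Y` with coefficients `eval₂ _ X (G.coeff j)`.
(1) `X ∈ O`: the coefficients are in `O`, so `Y ∈ O`.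
(2) `X ∉ O`: `u := X⁻¹` is in `t K⟦t⟧` (order `≥ 1`). Let `D = G.natDegree`, `T = Y * u^κ`. Multiply the equation by `u^(κ D)`:
`∑_(j ≤ D) (g_j(X) u^(κ (D - j))) T^j = 0`, and `g_j(X) u^(κ (D-j)) = ∑_(i ≤ κ (D-j)) g_ij u^(κ (D-j) - i) ∈ O` (`Wt`), with constant term
`g_(κ(D-j), j)` (all other terms have a factor `u`). For `j = D` it is `1`. So `T` is integral over `O`, `T ∈ O`; apply
`PowerSeries.constantCoeff`: `aeval (constantCoeff T) (lf κ G) = 0`, so `aeval θ (P^j) = 0`, `aeval θ P = 0`. -/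

namespace Pool.Agent.H4.SF

open Polynomial

/-- the equation at infinity -/
private noncomputable def ppi (κ : ℕ) (G : ℤ[X][X]) {S : Type} [CommRing S] (a : S) : S[X] :=
  ∑ j ∈ Finset.range (G.natDegree + 1),
    C (∑ i ∈ Finset.range (κ * (G.natDegree - j) + 1),
      (((G.coeff j).coeff i : ℤ) : S) * a ^ (κ * (G.natDegree - j) - i)) * X ^ j

private theorem ppi_map (κ : ℕ) (G : ℤ[X][X]) {S S' : Type} [CommRing S] [CommRing S'] (a : S)
    (f : S →+* S') : (ppi κ G a).map f = ppi κ G (f a) := by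
  unfold ppi
  rw [Polynomial.map_sum]
  refine Finset.sum_congr rfl fun j _ => ?_
  rw [Polynomial.map_mul, map_C, Polynomial.map_pow, map_X, map_sum]
  congr 2
  refine Finset.sum_congr rfl fun i _ => ?_
  rw [map_mul, map_pow, map_intCast]

private theorem ppi_zero (κ : ℕ) (G : ℤ[X][X]) {S : Type} [CommRing S] :
    ppi κ G (0 : S) = (lf κ G).map (Int.castRingHom S) := by
  unfold ppi lf
  rw [Polynomial.map_sum]
  refine Finset.sum_congr rfl fun j _ => ?_
  rw [Polynomial.map_mul, map_C, Polynomial.map_pow, map_X]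
  congr 2
  rw [Finset.sum_range_succ, Finset.sum_eq_zero, zero_add, Nat.sub_self, pow_zero, mul_one]
  · rfl
  · intro i hi
    rw [Finset.mem_range] at hi
    rw [zero_pow (by omega), mul_zero]

private theorem ppi_monic (κ : ℕ) {G : ℤ[X][X]} (hG : G.Monic) {S : Type} [CommRing S]
    [Nontrivial S] (a : S) : (ppi κ G a).Monic := by
  unfold ppi
  rw [Finset.sum_range_succ]
  have h1 : C (∑ i ∈ Finset.range (κ * (G.natDegree - G.natDegree) + 1),
      (((G.coeff G.natDegree).coeff i : ℤ) : S) * a ^ (κ * (G.natDegree - G.natDegree) - i)) *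
      (X : S[X]) ^ G.natDegree = X ^ G.natDegree := by
    rw [Nat.sub_self, mul_zero, zero_add, Finset.sum_range_one, hG.coeff_natDegree, coeff_one_zero,
      Nat.sub_zero, pow_zero, mul_one, Int.cast_one, C_1, one_mul]
  rw [h1, add_comm]
  refine monic_X_pow_add ?_
  refine (degree_sum_le _ _).trans_lt ?_
  rw [Finset.sup_lt_iff (by exact WithBot.bot_lt_coe _)]
  intro j hj
  rw [Finset.mem_range] at hj
  refine (degree_C_mul_X_pow_le _ _).trans_lt ?_
  exact_mod_cast hj

private theorem ppi_eval {κ : ℕ} {G : ℤ[X][X]} (hw : Wt κ G) {L : Type} [Field L] {x a : L}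
    (hxa : a * x = 1) (y : L) : (ppi κ G a).eval (y * a ^ κ) =
      a ^ (κ * G.natDegree) * ev x y G := by
  unfold ppi ev
  rw [eval₂_eq_sum_range, eval_finsetSum, Finset.mul_sum]
  refine Finset.sum_congr rfl fun j hj => ?_
  rw [Finset.mem_range] at hj
  rw [eval_mul, eval_C, eval_pow, eval_X, coe_eval₂RingHom,
    eval₂_eq_sum_range' _ (Nat.lt_succ_of_le (hw j)), mul_pow, ← pow_mul]
  have h1 : ∀ i ∈ Finset.range (κ * (G.natDegree - j) + 1),
      (((G.coeff j).coeff i : ℤ) : L) * a ^ (κ * (G.natDegree - j) - i) =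
      a ^ (κ * (G.natDegree - j)) * (Int.castRingHom L ((G.coeff j).coeff i) * x ^ i) := by
    intro i hi
    rw [Finset.mem_range] at hi
    have h2 : a ^ (κ * (G.natDegree - j)) = a ^ (κ * (G.natDegree - j) - i) * a ^ i := by
      rw [← pow_add]
      congr 1
      omega
    rw [h2, eq_intCast]
    have h3 : a ^ i * x ^ i = 1 := by rw [← mul_pow, hxa, one_pow]
    linear_combination (-(((G.coeff j).coeff i : ℤ) : L) * a ^ (κ * (G.natDegree - j) - i)) * h3
  rw [Finset.sum_congr rfl h1, ← Finset.mul_sum]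
  have h4 : a ^ (κ * G.natDegree) = a ^ (κ * (G.natDegree - j)) * a ^ (κ * j) := by
    rw [← pow_add, ← mul_add, Nat.sub_add_cancel (by omega)]
  rw [h4]
  ring

private theorem str_int {K : Type} [Field K] {Y : LaurentSeries K} {p : (PowerSeries K)[X]}
    (hp : p.Monic) (h : eval₂ (HahnSeries.ofPowerSeries ℤ K) Y p = 0) :
    Y ∈ (HahnSeries.ofPowerSeries ℤ K).range := by
  have h1 : IsIntegral (PowerSeries K) Y := ⟨p, hp, h⟩
  obtain ⟨y, hy⟩ := (IsIntegrallyClosed.isIntegral_iff (R := PowerSeries K)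
    (K := LaurentSeries K)).1 h1
  exact ⟨y, hy⟩

theorem star {K : Type} [Field K] [CharZero K] {κ : ℕ} {G : ℤ[X][X]} {P : ℤ[X]} (hG : G.Monic)
    (hw : Wt κ G) (hl : ∃ j, lf κ G = P ^ j) {X Y : LaurentSeries K} (h : ev X Y G = 0) :
    (X ∈ (HahnSeries.ofPowerSeries ℤ K).range ∧ Y ∈ (HahnSeries.ofPowerSeries ℤ K).range) ∨
      ∃ θ : K, aeval θ P = 0 := by
  by_cases hX : X ∈ (HahnSeries.ofPowerSeries ℤ K).range
  · left
    refine ⟨hX, ?_⟩
    obtain ⟨x, rfl⟩ := hX
    refine str_int (hG.map (eval₂RingHom (Int.castRingHom (PowerSeries K)) x)) ?_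
    rw [eval₂_map]
    have e : (HahnSeries.ofPowerSeries ℤ K).comp (eval₂RingHom (Int.castRingHom (PowerSeries K)) x) =
        eval₂RingHom (Int.castRingHom (LaurentSeries K)) (HahnSeries.ofPowerSeries ℤ K x) := by
      refine Polynomial.ringHom_ext (fun n => ?_) ?_
      · simp
      · simp
    rw [e]
    exact h
  · right
    have hX0 : X ≠ 0 := by
      rintro rfl
      exact hX (Subring.zero_mem _)
    obtain ⟨u, hu⟩ : ∃ u : PowerSeries K, HahnSeries.ofPowerSeries ℤ K u = X⁻¹ := by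
      rcases ValuationRing.isInteger_or_isInteger (PowerSeries K) X with h1 | h1
      · obtain ⟨x, hx⟩ := h1
        exact absurd ⟨x, hx⟩ hX
      · obtain ⟨x, hx⟩ := h1
        exact ⟨x, hx⟩
    have hu0 : PowerSeries.constantCoeff u = 0 := by
      by_contra hne
      have h1 : IsUnit u := PowerSeries.isUnit_iff_constantCoeff.2 (isUnit_iff_ne_zero.2 hne)
      obtain ⟨v, hv⟩ := h1.exists_right_inv
      apply hX
      refine ⟨v, ?_⟩
      have h2 := congrArg (HahnSeries.ofPowerSeries ℤ K) hv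
      rw [map_mul, hu, map_one] at h2
      exact (eq_inv_of_mul_eq_one_right h2).trans (inv_inv X)
    have hT : eval₂ (HahnSeries.ofPowerSeries ℤ K) (Y * X⁻¹ ^ κ) (ppi κ G u) = 0 := by
      rw [← eval_map, ppi_map, hu, ppi_eval hw (inv_mul_cancel₀ hX0), h, mul_zero]
    obtain ⟨T, hTT⟩ := str_int (ppi_monic κ hG u) hT
    have hT0 : (ppi κ G u).eval T = 0 := by
      have h1 : HahnSeries.ofPowerSeries ℤ K ((ppi κ G u).eval T) = 0 := by
        rw [← eval₂_at_apply, hTT]
        exact hT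
      exact HahnSeries.ofPowerSeries_injective (h1.trans (map_zero _).symm)
    refine ⟨PowerSeries.constantCoeff T, ?_⟩
    have h2 : ((ppi κ G u).map (PowerSeries.constantCoeff (R := K))).eval
        (PowerSeries.constantCoeff T) = 0 := by
      rw [eval_map, eval₂_at_apply, hT0, map_zero]
    rw [ppi_map, hu0, ppi_zero] at h2
    obtain ⟨j, hj⟩ := hl
    rw [hj, Polynomial.map_pow, eval_pow, eval_map] at h2
    have h3 := eq_zero_of_pow_eq_zero h2
    exact h3

end Pool.Agent.H4.SF
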